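import Pool.Agent.H62.Uc3

set_option autoImplicit false

namespace Pool.Agent.Results.MP_dc84f7_lc.Exists

open Pool.Agent.H62.Uc

/-- There is a computable structure in a computable relational language that is not uniformly
computably categorical but is uniformly computably categorical within every uniformly computable
collection of its copies (so Q1 has answer yes, with the degree 0). -/
theorem result : ∃ (ar : ℕ → ℕ) (A : Str), Computable ar ∧ (∃ e, IsIdx ar e A) ∧
    ¬ UCC ar A ∧ Within ar A :=
  Pool.Agent.H62.Uc.main

end Pool.Agent.Results.MP_dc84f7_lc.Exists
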